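import Mathlib
import Pool.Agent.R114.Det.Main

/-!
# The determinant lower bound is at most a constant times the hereditary partial vector discrepancy

Together with the known reverse inequality this shows that the two quantities are equivalent up to
absolute constants.
-/

set_option autoImplicit false

namespace Pool.Agent.Results.MP_c6e1d2_co.DetUpper

/-- The determinant lower bound: the maximum of `|det A_{S,T}|^(1/k)` over all `k ≥ 1` and all
`k × k` submatrices of `A` (given by an injective choice of `k` rows and of `k` columns; their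
order does not matter for the absolute value of the determinant). -/
noncomputable def detLB {m n : ℕ} (A : Matrix (Fin m) (Fin n) ℝ) : ℝ :=
  sSup {x | ∃ (k : ℕ) (S : Fin k ↪ Fin m) (T : Fin k ↪ Fin n), 1 ≤ k ∧
    x = |(A.submatrix S T).det| ^ ((1 : ℝ) / k)}

/-- `(A, S, lam)` is feasible: there are vectors `v_j` in some `ℝ^d` with
`‖∑_{j ∈ S} a_ij v_j‖² ≤ lam²` for every row `i`, `∑_j ‖v_j‖² ≥ |S|/2`, `‖v_j‖² ≤ 1` for `j ∈ S` and
`v_j = 0` for `j ∉ S`. -/
def Feasible {m n : ℕ} (A : Matrix (Fin m) (Fin n) ℝ) (S : Finset (Fin n)) (lam : ℝ) : Prop :=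
  ∃ (d : ℕ) (v : Fin n → EuclideanSpace ℝ (Fin d)),
    (∀ i, ‖∑ j ∈ S, A i j • v j‖ ^ 2 ≤ lam ^ 2) ∧ (S.card : ℝ) / 2 ≤ ∑ j, ‖v j‖ ^ 2 ∧
    (∀ j ∈ S, ‖v j‖ ^ 2 ≤ 1) ∧ ∀ j, j ∉ S → v j = 0

/-- The hereditary partial vector discrepancy: the least `lam ≥ 0` such that `(A, S, lam)` is
feasible for every set `S` of columns. -/
noncomputable def herpvdisc {m n : ℕ} (A : Matrix (Fin m) (Fin n) ℝ) : ℝ :=
  sInf {lam | 0 ≤ lam ∧ ∀ S : Finset (Fin n), Feasible A S lam}

open Finset

theorem feasible_mono {m n : ℕ} {A : Matrix (Fin m) (Fin n) ℝ} {S : Finset (Fin n)}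
    {l l' : ℝ} (h0 : 0 ≤ l) (hl : l ≤ l') (h : Feasible A S l) : Feasible A S l' := by
  obtain ⟨d, v, h1, h2, h3, h4⟩ := h
  exact ⟨d, v, fun i => (h1 i).trans (pow_le_pow_left₀ h0 hl 2), h2, h3, h4⟩

theorem feasible_nonempty {m n : ℕ} (A : Matrix (Fin m) (Fin n) ℝ) :
    {lam | 0 ≤ lam ∧ ∀ S : Finset (Fin n), Feasible A S lam}.Nonempty := by
  classical
  refine ⟨∑ i, ∑ j, |A i j|, ?_, ?_⟩
  · exact Finset.sum_nonneg fun i _ => Finset.sum_nonneg fun j _ => abs_nonneg _
  · intro S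
    let e : EuclideanSpace ℝ (Fin 1) := EuclideanSpace.single 0 1
    have he : ‖e‖ = 1 := by simp [e]
    refine ⟨1, fun j => if j ∈ S then e else 0, ?_, ?_, ?_, ?_⟩
    · intro i
      have h1 : ∑ j ∈ S, A i j • (if j ∈ S then e else 0) = (∑ j ∈ S, A i j) • e := by
        rw [Finset.sum_smul]
        apply Finset.sum_congr rfl
        intro j hj
        rw [if_pos hj]
      rw [h1, norm_smul, he, mul_one, Real.norm_eq_abs]
      apply pow_le_pow_left₀ (abs_nonneg _)
      calc |∑ j ∈ S, A i j| ≤ ∑ j ∈ S, |A i j| := Finset.abs_sum_le_sum_abs _ _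
        _ ≤ ∑ j, |A i j| := Finset.sum_le_univ_sum_of_nonneg fun j => abs_nonneg _
        _ ≤ ∑ i, ∑ j, |A i j| := Finset.single_le_sum (f := fun i => ∑ j, |A i j|)
            (fun i _ => Finset.sum_nonneg fun j _ => abs_nonneg _) (Finset.mem_univ i)
    · have h2 : ∑ j, ‖(if j ∈ S then e else 0 : EuclideanSpace ℝ (Fin 1))‖ ^ 2 = S.card := by
        have : ∀ j, ‖(if j ∈ S then e else 0 : EuclideanSpace ℝ (Fin 1))‖ ^ 2 =
            if j ∈ S then (1 : ℝ) else 0 := by
          intro j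
          split_ifs <;> simp [he]
        simp_rw [this]
        simp
      rw [h2]
      have : (0 : ℝ) ≤ S.card := Nat.cast_nonneg _
      linarith
    · intro j hj
      simp only [if_pos hj, he]
      norm_num
    · intro j hj
      simp only [if_neg hj]

theorem set_finite {m n : ℕ} (A : Matrix (Fin m) (Fin n) ℝ) :
    {x : ℝ | ∃ (k : ℕ) (S : Fin k ↪ Fin m) (T : Fin k ↪ Fin n), 1 ≤ k ∧
      x = |(A.submatrix S T).det| ^ ((1 : ℝ) / k)}.Finite := by
  have : {x : ℝ | ∃ (k : ℕ) (S : Fin k ↪ Fin m) (T : Fin k ↪ Fin n), 1 ≤ k ∧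
      x = |(A.submatrix S T).det| ^ ((1 : ℝ) / k)} ⊆
      Set.range (fun p : Σ k : Fin (n + 1), (Fin k ↪ Fin m) × (Fin k ↪ Fin n) =>
        |(A.submatrix p.2.1 p.2.2).det| ^ ((1 : ℝ) / ((p.1 : ℕ) : ℝ))) := by
    rintro x ⟨k, S, T, -, rfl⟩
    have hk : k < n + 1 := by
      have := Fintype.card_le_of_embedding T
      simp at this
      omega
    exact ⟨⟨⟨k, hk⟩, S, T⟩, rfl⟩
  exact (Set.finite_range _).subset this

theorem herpvdisc_nonneg {m n : ℕ} (A : Matrix (Fin m) (Fin n) ℝ) : 0 ≤ herpvdisc A :=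
  le_csInf (feasible_nonempty A) fun _ h => h.1

theorem main {m n : ℕ} (A : Matrix (Fin m) (Fin n) ℝ) : detLB A ≤ 600 * herpvdisc A := by
  classical
  by_contra hcon
  push Not at hcon
  have hnn := herpvdisc_nonneg A
  have hLpos : 0 < detLB A := by linarith
  set 𝒮 := {x : ℝ | ∃ (k : ℕ) (S : Fin k ↪ Fin m) (T : Fin k ↪ Fin n), 1 ≤ k ∧
      x = |(A.submatrix S T).det| ^ ((1 : ℝ) / k)} with h𝒮
  have hne : 𝒮.Nonempty := by
    by_contra hemp
    rw [Set.not_nonempty_iff_eq_empty] at hemp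
    have : detLB A = sSup 𝒮 := rfl
    rw [this, hemp, Real.sSup_empty] at hLpos
    exact lt_irrefl _ hLpos
  have hmem : detLB A ∈ 𝒮 := hne.csSup_mem (set_finite A)
  have hmax : ∀ x ∈ 𝒮, x ≤ detLB A := fun x hx => le_csSup (set_finite A).bddAbove hx
  obtain ⟨lam, hl1, hl2⟩ := exists_between (show herpvdisc A < detLB A / 600 by linarith)
  obtain ⟨l', ⟨hl'0, hl'F⟩, hl'⟩ := exists_lt_of_csInf_lt (feasible_nonempty A) hl1
  have hF : ∀ S, Feasible A S lam := fun S => feasible_mono hl'0 hl'.le (hl'F S)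
  have hlam : 0 < lam := lt_of_le_of_lt hnn hl1
  obtain ⟨k, S, T, hk, hL⟩ := hmem
  set L := detLB A with hLdef
  have hpow : ∀ (j : ℕ) (x : ℝ), 0 ≤ x → 1 ≤ j → (x ^ ((1 : ℝ) / j)) ^ j = x := by
    intro j x hx hj
    rw [← Real.rpow_natCast, ← Real.rpow_mul hx, one_div, inv_mul_cancel₀, Real.rpow_one]
    exact_mod_cast (by omega : j ≠ 0)
  have hdet : |(A.submatrix S T).det| = L ^ k := by
    rw [hL, hpow k _ (abs_nonneg _) hk]
  have hmin0 : ∀ (j : ℕ) (a : Fin j ↪ Fin m) (b : Fin j ↪ Fin n),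
      |(A.submatrix a b).det| ≤ L ^ j := by
    intro j a b
    rcases Nat.eq_zero_or_pos j with h0 | h0
    · subst h0
      simp
    · have h1 : |(A.submatrix a b).det| ^ ((1 : ℝ) / j) ≤ L := hmax _ ⟨j, a, b, h0, rfl⟩
      have h2 := pow_le_pow_left₀ (Real.rpow_nonneg (abs_nonneg _) _) h1 j
      rwa [hpow j _ (abs_nonneg _) h0] at h2
  refine Pool.Agent.R114.Det.core (k := k) (by omega) (A.submatrix S T) L lam hlam
    (by linarith) hdet ?_ ?_
  · intro j a b
    rw [Matrix.submatrix_submatrix]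
    exact hmin0 j (a.trans S) (b.trans T)
  · intro U
    obtain ⟨d, v, h1, h2, h3, h4⟩ := hF (U.map T)
    have hsub : ∀ j, j ∉ U → v (T j) = 0 := by
      intro j hj
      apply h4
      rw [Finset.mem_map']
      exact hj
    refine ⟨d, fun j => v (T j), ?_, ?_, ?_, hsub⟩
    · intro i
      have := h1 (S i)
      rw [Finset.sum_map] at this
      exact this
    · rw [Finset.card_map] at h2
      have e1 : ∑ j, ‖v j‖ ^ 2 = ∑ j ∈ U.map T, ‖v j‖ ^ 2 := by
        symm
        apply Finset.sum_subset (Finset.subset_univ _)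
        intro j _ hj
        rw [h4 j hj]
        simp
      have e2 : ∑ j, ‖v (T j)‖ ^ 2 = ∑ j ∈ U, ‖v (T j)‖ ^ 2 := by
        symm
        apply Finset.sum_subset (Finset.subset_univ _)
        intro j _ hj
        rw [hsub j hj]
        simp
      rw [e2]
      rw [e1, Finset.sum_map] at h2
      exact h2
    · intro j hj
      exact h3 _ (Finset.mem_map_of_mem T hj)

/-- **The determinant lower bound is at most a constant times the hereditary partial vector
discrepancy**: there is an absolute constant `C > 0` (one can take `C = 600`) with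
`detLB A ≤ C * herpvdisc A` for every real matrix `A`. -/
theorem result : ∃ C : ℝ, 0 < C ∧ ∀ (m n : ℕ) (A : Matrix (Fin m) (Fin n) ℝ),
    detLB A ≤ C * herpvdisc A :=
  ⟨600, by norm_num, fun _ _ A => main A⟩

end Pool.Agent.Results.MP_c6e1d2_co.DetUpper
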